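import Pool.Agent.L0h7.UL.Stm

/-! # Approximation of a group which is locally embeddable into finite groups -/

set_option autoImplicit false
set_option linter.unusedSectionVars false

open scoped ENNReal InnerProductSpace
open Filter Topology

noncomputable section

namespace Pool.Agent.L0h78.UL

open H61R3NG Pool.Agent.L0h7.UL

section lists

variable {G : Type} [Group G]

/-- the words of length at most `M` -/
def Wl (T : Finset G) (M : ℕ) (l : List G) : Prop := l.length ≤ M ∧ ∀ x ∈ l, x ∈ T ∨ x⁻¹ ∈ T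

lemma fin_P (T : Finset G) (M : ℕ) : {g : G | ∃ l, Wl T M l ∧ l.prod = g}.Finite := by
  have h0 : ({x : G | x ∈ T ∨ x⁻¹ ∈ T} : Set G).Finite := by
    have h1 : ({x : G | x ∈ T} : Set G).Finite := T.finite_toSet
    have h2 : ({x : G | x⁻¹ ∈ T} : Set G).Finite :=
      T.finite_toSet.preimage (f := fun x : G => x⁻¹) inv_injective.injOn
    exact h1.union h2
  have h1 : Finite {x : G // x ∈ T ∨ x⁻¹ ∈ T} := h0.to_subtype
  have h2 := List.finite_length_le {x : G // x ∈ T ∨ x⁻¹ ∈ T} M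
  refine (h2.image (fun l => (l.map Subtype.val).prod)).subset ?_
  rintro g ⟨l, ⟨hl, hx⟩, rfl⟩
  refine ⟨l.attachWith _ hx, by simpa using hl, ?_⟩
  dsimp only
  rw [List.attachWith_map_subtype_val]

variable {Q : Type} [Group Q] {T : Finset G} {M : ℕ} {f : G → Q} {E : Finset G}
  (hE : ∀ l, Wl T M l → l.prod ∈ E)
  (hm : ∀ x ∈ E, ∀ y ∈ E, f (x * y) = f x * f y) (hi : ∀ x ∈ E, ∀ y ∈ E, f x = f y → x = y)

include hE hm

lemma one_E : (1 : G) ∈ E := by
  have := hE [] ⟨by simp, by simp⟩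
  simpa using this

lemma f_one : f 1 = 1 := by
  have h1 := one_E hE hm
  have h2 := hm 1 h1 1 h1
  rw [mul_one] at h2
  exact left_eq_mul.1 h2

lemma let_E (hM : 1 ≤ M) {x : G} (hx : x ∈ T ∨ x⁻¹ ∈ T) : x ∈ E := by
  have := hE [x] ⟨by simpa using hM, by
    intro y hy
    rw [List.mem_singleton] at hy
    rw [hy]
    exact hx⟩
  simpa using this

lemma f_inv (hM : 1 ≤ M) {x : G} (hx : x ∈ T ∨ x⁻¹ ∈ T) : f x⁻¹ = (f x)⁻¹ := by
  have h1 := let_E hE hm hM hx
  have h2 : x⁻¹ ∈ E := let_E hE hm hM (by rw [inv_inv]; exact hx.symm)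
  have h3 := hm x h1 x⁻¹ h2
  rw [mul_inv_cancel, f_one hE hm] at h3
  exact (inv_eq_of_mul_eq_one_right h3.symm).symm

lemma f_prod (hM : 1 ≤ M) (l : List G) (hl : Wl T M l) : f l.prod = (l.map f).prod := by
  induction l with
  | nil => simpa using f_one hE hm
  | cons x l ih =>
    have h1 : x ∈ T ∨ x⁻¹ ∈ T := hl.2 x (by simp)
    have h2 : Wl T M l := ⟨by have := hl.1; simp at this; omega, fun y hy => hl.2 y (by simp [hy])⟩
    rw [List.prod_cons, List.map_cons, List.prod_cons, hm x (let_E hE hm hM h1) _ (hE l h2), ih h2]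

/-- the lifts -/
lemma lift_eq (hM : 1 ≤ M) {n : ℕ} (t : Fin n → G) (ht : ∀ i, t i ∈ T) (w : FreeGroup (Fin n))
    (hw : w.toWord.length ≤ M) :
    FreeGroup.lift (f ∘ t) w = f (FreeGroup.lift t w) ∧ FreeGroup.lift t w ∈ E := by
  have hl : Wl T M (w.toWord.map fun x => cond x.2 (t x.1) (t x.1)⁻¹) := by
    refine ⟨by simpa using hw, ?_⟩
    intro y hy
    rw [List.mem_map] at hy
    obtain ⟨⟨i, b⟩, -, rfl⟩ := hy
    cases b
    · right
      simpa using ht i
    · left
      simpa using ht i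
  have e1 : ∀ {H : Type} [Group H] (s : Fin n → H), FreeGroup.lift s w =
      (w.toWord.map fun x => cond x.2 (s x.1) (s x.1)⁻¹).prod := by
    intro H _ s
    conv_lhs => rw [← FreeGroup.mk_toWord (x := w)]
    rw [FreeGroup.lift_mk]
  rw [e1 (f ∘ t), e1 t, f_prod hE hm hM _ hl]
  refine ⟨?_, hE _ hl⟩
  rw [List.map_map]
  congr 1
  apply List.map_congr_left
  rintro ⟨i, b⟩ -
  cases b
  · simp [f_inv hE hm hM (Or.inl (ht i))]
  · simp

include hi

lemma lift_iff (hM : 1 ≤ M) {n : ℕ} (t : Fin n → G) (ht : ∀ i, t i ∈ T) (w : FreeGroup (Fin n))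
    (hw : w.toWord.length ≤ M) : FreeGroup.lift (f ∘ t) w = 1 ↔ FreeGroup.lift t w = 1 := by
  obtain ⟨h1, h2⟩ := lift_eq hE hm hM t ht w hw
  rw [h1]
  constructor
  · intro h
    exact hi _ h2 _ (one_E hE hm) (by rw [h, f_one hE hm])
  · intro h
    rw [h, f_one hE hm]

/-- no torsion in the image -/
lemma noTors (hG : TF G) {L : ℕ} (hM : 1 ≤ M) (hL : L * L ≤ M) (S : Finset Q)
    (hS : ∀ y ∈ S, ∃ x ∈ T, f x = y) : NoTors S L := by
  intro l hl hl2 k hk hkL hp
  -- the preimage of the list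
  have hpre : ∀ l : List Q, (∀ x ∈ l, x ∈ S ∨ x⁻¹ ∈ S) → ∃ l' : List G, l'.length = l.length ∧
      (∀ x ∈ l', x ∈ T ∨ x⁻¹ ∈ T) ∧ l'.map f = l := by
    intro l
    induction l with
    | nil => exact fun _ => ⟨[], rfl, by simp, rfl⟩
    | cons y l ih =>
      intro h
      obtain ⟨l', h1, h2, h3⟩ := ih (fun x hx => h x (by simp [hx]))
      obtain ⟨x, hx, hxy⟩ : ∃ x, (x ∈ T ∨ x⁻¹ ∈ T) ∧ f x = y := by
        rcases h y (by simp) with hy | hy
        · obtain ⟨x, hx, e⟩ := hS y hy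
          exact ⟨x, Or.inl hx, e⟩
        · obtain ⟨x, hx, e⟩ := hS _ hy
          refine ⟨x⁻¹, Or.inr (by rwa [inv_inv]), ?_⟩
          rw [f_inv hE hm hM (Or.inl hx), e, inv_inv]
      refine ⟨x :: l', by simp [h1], ?_, by simp [hxy, h3]⟩
      intro z hz
      rw [List.mem_cons] at hz
      rcases hz with rfl | hz
      · exact hx
      · exact h2 z hz
  obtain ⟨l', h1, h2, h3⟩ := hpre l hl2
  have hlL : l'.length ≤ L := by omega
  have hLM : L ≤ M := (Nat.le_mul_self L).trans hL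
  have w1 : Wl T M l' := ⟨hlL.trans hLM, h2⟩
  have e1 : f l'.prod = l.prod := by rw [f_prod hE hm hM l' w1, h3]
  -- the power
  have w2 : Wl T M (List.replicate k l').flatten := by
    refine ⟨?_, ?_⟩
    · rw [List.length_flatten, List.map_replicate, List.sum_replicate, smul_eq_mul]
      exact (Nat.mul_le_mul hkL hlL).trans hL
    · intro x hx
      rw [List.mem_flatten] at hx
      obtain ⟨l'', h4, h5⟩ := hx
      rw [List.mem_replicate] at h4
      rw [h4.2] at h5
      exact h2 x h5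
  have e2 : (List.replicate k l').flatten.prod = l'.prod ^ k := by
    rw [List.prod_flatten, List.map_replicate, List.prod_replicate]
  have e3 : f (l'.prod ^ k) = 1 := by
    rw [← e2, f_prod hE hm hM _ w2, List.map_flatten, List.map_replicate, h3, List.prod_flatten,
      List.map_replicate, List.prod_replicate, hp]
  have e4 : l'.prod ^ k = 1 := by
    apply hi _ (by rw [← e2]; exact hE _ w2) _ (one_E hE hm)
    rw [e3, f_one hE hm]
  rw [← e1, hG _ k hk e4, f_one hE hm]

end lists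

section coef

variable {G : Type} [Group G]

/-- the coefficients of `∑ a_i t_i` -/
lemma coeff_el {n : ℕ} (t : Fin n → G) (ht : Function.Injective t) (a : Fin n → ℂ) (i : Fin n) :
    (el t a).coeff (t i) = a i := by
  unfold el
  rw [MonoidAlgebra.coeff_sum, Finsupp.finsetSum_apply, Finset.sum_eq_single i]
  · rw [MonoidAlgebra.coeff_single, Finsupp.single_eq_same]
  · intro j _ hj
    rw [MonoidAlgebra.coeff_single, Finsupp.single_eq_of_ne]
    intro h
    exact hj (ht h.symm)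
  · intro h
    exact absurd (Finset.mem_univ i) h

lemma coeff_el_of {n : ℕ} (t : Fin n → G) (a : Fin n → ℂ) {x : G} (hx : ∀ i, t i ≠ x) :
    (el t a).coeff x = 0 := by
  unfold el
  rw [MonoidAlgebra.coeff_sum, Finsupp.finsetSum_apply]
  refine Finset.sum_eq_zero fun j _ => ?_
  rw [MonoidAlgebra.coeff_single, Finsupp.single_eq_of_ne]
  intro h
  exact hx j h.symm

lemma supp_el {n : ℕ} (t : Fin n → G) (ht : Function.Injective t) (a : Fin n → ℂ)
    (ha : ∀ i, a i ≠ 0) : (el t a).coeff.support = Finset.univ.map ⟨t, ht⟩ := by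
  ext x
  rw [Finsupp.mem_support_iff, Finset.mem_map]
  constructor
  · intro h
    by_contra hc
    push Not at hc
    exact h (coeff_el_of t a (fun i => hc i (Finset.mem_univ i)))
  · rintro ⟨i, -, rfl⟩
    show (el t a).coeff (t i) ≠ 0
    rw [coeff_el t ht]
    exact ha i

lemma nm_el {n : ℕ} (t : Fin n → G) (ht : Function.Injective t) (a : Fin n → ℂ)
    (ha : ∀ i, a i ≠ 0) : nm (el t a) = ∑ i, ‖a i‖ := by
  unfold nm
  rw [supp_el t ht a ha, Finset.sum_map]
  refine Finset.sum_congr rfl fun i _ => ?_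
  show ‖(el t a).coeff (t i)‖ = _
  rw [coeff_el t ht]

end coef

/-- LEFA -/
theorem t_LEFA : S_SIG → S_FORM → S_LUE → S_LEFA := by
  intro hsig hform hlue G _ hG hlef α hα hint ε L hε H
  -- the enumeration of the support
  obtain ⟨n, hn⟩ : ∃ n, n = α.coeff.support.card := ⟨_, rfl⟩
  obtain ⟨t, ht, htS⟩ : ∃ t : Fin n → G, Function.Injective t ∧
      ∀ x, x ∈ α.coeff.support ↔ ∃ i, t i = x := by
    subst hn
    refine ⟨fun i => (α.coeff.support.equivFin.symm i : G), ?_, ?_⟩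
    · intro i j h
      exact α.coeff.support.equivFin.symm.injective (Subtype.ext h)
    · intro x
      constructor
      · intro hx
        exact ⟨α.coeff.support.equivFin ⟨x, hx⟩, by simp⟩
      · rintro ⟨i, rfl⟩
        exact (α.coeff.support.equivFin.symm i).2
  obtain ⟨a, ha⟩ : ∃ a : Fin n → ℂ, a = fun i => α.coeff (t i) := ⟨_, rfl⟩
  have ha0 : ∀ i, a i ≠ 0 := by
    intro i
    rw [ha]
    have : t i ∈ α.coeff.support := (htS _).2 ⟨i, rfl⟩
    exact Finsupp.mem_support_iff.1 this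
  have hel : α = el t a := by
    apply MonoidAlgebra.coeff_injective
    ext x
    by_cases hx : x ∈ α.coeff.support
    · obtain ⟨i, rfl⟩ := (htS _).1 hx
      rw [coeff_el t ht, ha]
    · rw [Finsupp.notMem_support_iff.1 hx, coeff_el_of]
      intro i hi
      exact hx ((htS _).2 ⟨i, hi⟩)
  have hnm : nm α = ∑ i, ‖a i‖ := by rw [hel, nm_el t ht a ha0]
  obtain ⟨R, hR⟩ : ∃ R, R = max 1 (nm α ^ 2) := ⟨_, rfl⟩
  have hR1 : 1 ≤ R := by rw [hR]; exact le_max_left _ _
  have hR2 : nm α ^ 2 ≤ R := by rw [hR]; exact le_max_right _ _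
  -- the parameters
  obtain ⟨l, hl0, hl1, hlR⟩ : ∃ l : ℝ, 0 < l ∧ l < 1 ∧ Real.log R / Real.log (1 / l) ≤ ε / 2 := by
    obtain ⟨B, hB⟩ : ∃ B, B = max 1 (2 * Real.log R / ε) := ⟨_, rfl⟩
    have hB1 : 1 ≤ B := by rw [hB]; exact le_max_left _ _
    have hB2 : 2 * Real.log R / ε ≤ B := by rw [hB]; exact le_max_right _ _
    refine ⟨Real.exp (-B), Real.exp_pos _, ?_, ?_⟩
    · rw [Real.exp_lt_one_iff]
      linarith
    · rw [one_div, ← Real.exp_neg, neg_neg, Real.log_exp, div_le_iff₀ (by linarith)]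
      rw [div_le_iff₀ hε] at hB2
      linarith
  obtain ⟨N, hN0, hN⟩ : ∃ N : ℕ, 0 < N ∧ R / (N * l) ≤ ε / 2 := by
    obtain ⟨N, hN⟩ := exists_nat_gt (max 0 (2 * R / (l * ε)))
    have h1 : (0 : ℝ) < N := lt_of_le_of_lt (le_max_left _ _) hN
    have h2 : 2 * R / (l * ε) < N := lt_of_le_of_lt (le_max_right _ _) hN
    refine ⟨N, by exact_mod_cast h1, ?_⟩
    rw [div_le_iff₀ (by positivity)]
    rw [div_lt_iff₀ (by positivity)] at h2
    nlinarith
  obtain ⟨W, c, -, hW⟩ := hform n R N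
  -- the finite set
  obtain ⟨M, hM1, hML, hMW⟩ : ∃ M : ℕ, 1 ≤ M ∧ L * L ≤ M ∧ ∀ w ∈ W, w.toWord.length ≤ M := by
    refine ⟨1 + L * L + W.sup (fun w => w.toWord.length), by omega, by omega, fun w hw => ?_⟩
    have := Finset.le_sup (f := fun w : FreeGroup (Fin n) => w.toWord.length) hw
    omega
  obtain ⟨T, hT⟩ : ∃ T, T = α.coeff.support := ⟨_, rfl⟩
  have htT : ∀ i, t i ∈ T := by
    intro i
    rw [hT]
    exact (htS _).2 ⟨i, rfl⟩
  obtain ⟨Q, _, hQf, f, hm, hi⟩ := hlef (fin_P T M).toFinset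
  have hE : ∀ l, Wl T M l → l.prod ∈ (fin_P T M).toFinset := by
    intro l hl
    rw [Set.Finite.mem_toFinset]
    exact ⟨l, hl, rfl⟩
  have hft : Function.Injective (f ∘ t) := by
    intro i j h
    exact ht (hi _ (let_E hE hm hM1 (Or.inl (htT i))) _ (let_E hE hm hM1 (Or.inl (htT j))) h)
  obtain ⟨β, hβ⟩ : ∃ β, β = el (f ∘ t) a := ⟨_, rfl⟩
  have hsgeq : sg R N α = sg R N β := by
    rw [hβ, hel, hW, hW]
    refine Finset.sum_congr rfl fun w hw => ?_
    have := lift_iff hE hm hi hM1 t htT w (hMW w hw)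
    by_cases h : FreeGroup.lift t w = 1
    · rw [if_pos h, if_pos (this.2 h)]
    · rw [if_neg h, if_neg (fun h' => h (this.1 h'))]
  have hsupp : β.coeff.support = Finset.univ.map ⟨f ∘ t, hft⟩ := by rw [hβ, supp_el _ hft a ha0]
  have hnmβ : nm β = nm α := by rw [hβ, nm_el _ hft a ha0, hnm]
  have hn0 : 0 < n := by
    rw [hn, Finset.card_pos, Finsupp.support_nonempty_iff]
    intro h
    exact hα (MonoidAlgebra.coeff_eq_zero.1 h)
  have hβ0 : β ≠ 0 := by
    intro h
    have h1 : (Finset.univ.map ⟨f ∘ t, hft⟩ : Finset Q).card = 0 := by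
      rw [← hsupp, h]
      simp
    rw [Finset.card_map, Finset.card_univ, Fintype.card_fin] at h1
    omega
  have hcoef : ∀ x, (∃ i, β.coeff x = a i) ∨ β.coeff x = 0 := by
    intro x
    by_cases h : ∃ i, (f ∘ t) i = x
    · obtain ⟨i, rfl⟩ := h
      exact Or.inl ⟨i, by rw [hβ, coeff_el _ hft]⟩
    · push Not at h
      exact Or.inr (by rw [hβ]; exact coeff_el_of _ a h)
  have hβint : IsInt β := by
    intro x
    rcases hcoef x with ⟨i, h⟩ | h
    · obtain ⟨z, hz⟩ := hint (t i)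
      exact ⟨z, by rw [h, ha]; exact hz⟩
    · exact ⟨0, by rw [h]; simp⟩
  have hβle : ∀ x, ‖β.coeff x‖ ≤ nm α := by
    intro x
    rw [hnm]
    rcases hcoef x with ⟨i, h⟩ | h
    · rw [h]
      exact Finset.single_le_sum (f := fun i => ‖a i‖) (fun _ _ => norm_nonneg _)
        (Finset.mem_univ i)
    · rw [h, norm_zero]
      exact Finset.sum_nonneg fun _ _ => norm_nonneg _
  have hβcard : β.coeff.support.card ≤ α.coeff.support.card := by
    rw [hsupp, Finset.card_map, Finset.card_univ, Fintype.card_fin, hn]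
  have hβtors : NoTors β.coeff.support L := by
    refine noTors hE hm hi hG hM1 hML _ ?_
    intro y hy
    rw [hsupp, Finset.mem_map] at hy
    obtain ⟨i, -, rfl⟩ := hy
    exact ⟨t i, htT i, rfl⟩
  have h1 := (hsig G α R (by linarith) hR2).1 N hN0
  have h2 := hlue Q β R hR1 (by rw [hnmβ]; exact hR2) hβint N l hN0 hl0 hl1
  have h3 := H Q β hβ0 hβint hβle hβcard hβtors
  rw [hsgeq] at h1
  linarith

end Pool.Agent.L0h78.UL
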